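import Pool.Agent.Y984.ML.Final

set_option autoImplicit false

open Finset Filter Topology

namespace Pool.Agent.Y984.ML

theorem big (c C : ℝ) (hc : 0 < c) : ∃ L : ℝ, 10 ≤ L ∧
    C * (16 / 3 * Real.log (8 * L)) < L / (1 + Real.log L) ∧
    C * (16 / 3 * Real.log (2 + 2 * L / c)) < L / (1 + Real.log L) := by
  have h1 : ∀ᶠ L : ℝ in atTop, ‖Real.log L‖ ≤ 1 / 2 * ‖L ^ (1 / 4 : ℝ)‖ :=
    (isLittleO_log_rpow_atTop (by norm_num : (0 : ℝ) < 1 / 4)).bound (by norm_num)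
  have h2 : ∀ᶠ L : ℝ in atTop, |C| * (16 / 3) + 1 ≤ L ^ (1 / 2 : ℝ) :=
    (tendsto_rpow_atTop (by norm_num : (0 : ℝ) < 1 / 2)).eventually_ge_atTop _
  have h3 : ∀ᶠ L : ℝ in atTop, 2 + 2 / c ≤ L := eventually_ge_atTop _
  obtain ⟨L, e1, e2, e3, e4⟩ := (h1.and (h2.and (h3.and (eventually_ge_atTop 10)))).exists
  have hL : 0 < L := by linarith
  have hq : 0 ≤ L ^ (1 / 4 : ℝ) := by positivity
  have hlog1 : 1 ≤ Real.log L := by
    have h5 : Real.exp 1 ≤ L := by have := Real.exp_one_lt_d9; linarith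
    have := Real.log_le_log (Real.exp_pos 1) h5
    rwa [Real.log_exp] at this
  rw [Real.norm_eq_abs, Real.norm_eq_abs, abs_of_nonneg (by linarith), abs_of_nonneg hq] at e1
  have a1 : 1 + Real.log L ≤ L ^ (1 / 4 : ℝ) := by linarith
  have a2 : Real.log (8 * L) ≤ L ^ (1 / 4 : ℝ) := by
    have h6 : Real.log (8 * L) ≤ Real.log (L * L) :=
      Real.log_le_log (by positivity) (by nlinarith)
    rw [Real.log_mul hL.ne' hL.ne'] at h6
    linarith
  have a3 : Real.log (2 + 2 * L / c) ≤ L ^ (1 / 4 : ℝ) := by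
    have h6 : Real.log (2 + 2 * L / c) ≤ Real.log (L * L) := by
      apply Real.log_le_log (by positivity)
      have h7 : 2 * L / c = 2 / c * L := by ring
      rw [h7]
      have h8 : 0 < 2 / c := by positivity
      nlinarith
    rw [Real.log_mul hL.ne' hL.ne'] at h6
    linarith
  have hsplit : L = L ^ (1 / 4 : ℝ) * L ^ (1 / 4 : ℝ) * L ^ (1 / 2 : ℝ) := by
    rw [← Real.rpow_add hL, ← Real.rpow_add hL]
    norm_num
  have hs : 0 < L ^ (1 / 4 : ℝ) := by positivity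
  have key : ∀ a : ℝ, 0 ≤ a → a ≤ L ^ (1 / 4 : ℝ) →
      C * (16 / 3 * a) < L / (1 + Real.log L) := by
    intro a ha0 ha
    rw [lt_div_iff₀ (by linarith)]
    calc C * (16 / 3 * a) * (1 + Real.log L) ≤ |C| * (16 / 3 * a) * (1 + Real.log L) := by
          apply mul_le_mul_of_nonneg_right _ (by linarith)
          exact mul_le_mul_of_nonneg_right (le_abs_self C) (by positivity)
      _ ≤ |C| * (16 / 3 * L ^ (1 / 4 : ℝ)) * L ^ (1 / 4 : ℝ) := by
          apply mul_le_mul _ a1 (by linarith) (by positivity)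
          apply mul_le_mul_of_nonneg_left _ (abs_nonneg C)
          linarith
      _ = (|C| * (16 / 3)) * (L ^ (1 / 4 : ℝ) * L ^ (1 / 4 : ℝ)) := by ring
      _ < L ^ (1 / 2 : ℝ) * (L ^ (1 / 4 : ℝ) * L ^ (1 / 4 : ℝ)) := by
          apply mul_lt_mul_of_pos_right _ (by positivity)
          linarith
      _ = L ^ (1 / 4 : ℝ) * L ^ (1 / 4 : ℝ) * L ^ (1 / 2 : ℝ) := by ring
      _ = L := hsplit.symm
  refine ⟨L, e4, key _ ?_ a2, key _ ?_ a3⟩
  · exact Real.log_nonneg (by linarith)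
  · apply Real.log_nonneg
    have : 0 < 2 * L / c := by positivity
    linarith

/-- The comparison of `1 / c_MLS` with the entropy mixing time fails for three-state chains. -/
theorem main (c : ℝ) (hc : 0 < c) (C : ℝ) :
    ∃ (P : Matrix (Fin 3) (Fin 3) ℝ) (π : Fin 3 → ℝ), IsReversibleChain P π ∧
      (∀ x, (hitTimes c P π x).Nonempty) ∧ (∀ x, (entTimes P π x).Nonempty) ∧ 0 < cMLS P π ∧
      C * rhoEnt c P π < 1 / cMLS P π ∧ C * tauEnt P π < 1 / cMLS P π := by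
  obtain ⟨L, hL, h1, h2⟩ := big c (max C 0) hc
  have hL0 : 0 < L := by linarith
  have hC0 : 0 ≤ max C 0 := le_max_right _ _
  set ε := Real.exp (-L) with hε
  have h0 : 0 < ε := Real.exp_pos _
  have h18 : ε ≤ 1 / 8 := by
    have h2 : ε ≤ Real.exp (-10) := Real.exp_le_exp.mpr (by linarith)
    have h3 : (8 : ℝ) ≤ Real.exp 10 := by
      have := Real.add_one_le_exp (10 : ℝ); linarith
    rw [Real.exp_neg] at h2
    calc ε ≤ (Real.exp 10)⁻¹ := h2
      _ ≤ 8⁻¹ := inv_anti₀ (by norm_num) h3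
      _ = _ := by norm_num
  have hpos := cMLS_pos h0 h18
  have hup := cMLS_le hL
  have hlog : 0 ≤ Real.log L := Real.log_nonneg (by linarith)
  have hinv : L / (1 + Real.log L) ≤ 1 / cMLS (PP ε) (pp ε) := by
    rw [le_div_iff₀ hpos]
    calc L / (1 + Real.log L) * cMLS (PP ε) (pp ε) ≤
        L / (1 + Real.log L) * ((1 + Real.log L) / L) :=
          mul_le_mul_of_nonneg_left hup (by positivity)
      _ = 1 := by field_simp
  have hr0 : ∀ x : Fin 3, 0 ≤ sInf (hitTimes c (PP ε) (pp ε) x) := fun x =>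
    Real.sInf_nonneg fun t ht => ht.1
  have ht0 : ∀ x : Fin 3, 0 ≤ sInf (entTimes (PP ε) (pp ε) x) := fun x =>
    Real.sInf_nonneg fun t ht => ht.1
  have hrho0 : 0 ≤ rhoEnt c (PP ε) (pp ε) := Real.iSup_nonneg hr0
  have htau0 : 0 ≤ tauEnt (PP ε) (pp ε) := Real.iSup_nonneg ht0
  refine ⟨PP ε, pp ε, isChain h0 h18, fun x => ⟨_, hit_time hc hL x⟩,
    fun x => ⟨_, ent_time hL x⟩, hpos, ?_, ?_⟩
  · calc C * rhoEnt c (PP ε) (pp ε) ≤ max C 0 * rhoEnt c (PP ε) (pp ε) :=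
          mul_le_mul_of_nonneg_right (le_max_left _ _) hrho0
      _ ≤ max C 0 * (16 / 3 * Real.log (2 + 2 * L / c)) :=
          mul_le_mul_of_nonneg_left (rhoEnt_le hc hL) hC0
      _ < L / (1 + Real.log L) := h2
      _ ≤ _ := hinv
  · calc C * tauEnt (PP ε) (pp ε) ≤ max C 0 * tauEnt (PP ε) (pp ε) :=
          mul_le_mul_of_nonneg_right (le_max_left _ _) htau0
      _ ≤ max C 0 * (16 / 3 * Real.log (8 * L)) :=
          mul_le_mul_of_nonneg_left (tauEnt_le hL) hC0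
      _ < L / (1 + Real.log L) := h1
      _ ≤ _ := hinv

end Pool.Agent.Y984.ML
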