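import Mathlib

set_option autoImplicit false

open Finset

namespace Pool.Agent.Y984.ML

noncomputable section

variable {Ω : Type} [Fintype Ω] [DecidableEq Ω]

/-- `P` is an irreducible transition matrix on the finite set `Ω`, reversible with respect to the
probability vector `π` (its stationary distribution). -/
structure IsReversibleChain (P : Matrix Ω Ω ℝ) (π : Ω → ℝ) : Prop where
  nonneg : ∀ x y, 0 ≤ P x y
  row : ∀ x, ∑ y, P x y = 1
  irreducible : ∀ x y, ∃ n : ℕ, 0 < (P ^ n) x y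
  pos : ∀ x, 0 < π x
  total : ∑ x, π x = 1
  reversible : ∀ x y, π x * P x y = π y * P y x

/-- The heat kernel `H_t = exp (-t (I - P))`. -/
def heat (P : Matrix Ω Ω ℝ) (t : ℝ) : Matrix Ω Ω ℝ := NormedSpace.exp (-t • (1 - P))

/-- The Dirichlet form `E(f,g) = ⟨(I - P) f, g⟩_π`. -/
def energy (P : Matrix Ω Ω ℝ) (π f g : Ω → ℝ) : ℝ := ∑ x, π x * ((1 - P).mulVec f x * g x)

/-- `Ent_π(f) = E_π[f log f] - E_π[f] log E_π[f]`. -/
def ent (π f : Ω → ℝ) : ℝ :=
  ∑ x, π x * (f x * Real.log (f x)) - (∑ x, π x * f x) * Real.log (∑ x, π x * f x)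

/-- The modified log-Sobolev constant: the infimum of `E(e^f, f) / Ent_π(e^f)` over the
non-constant `f`. -/
def cMLS (P : Matrix Ω Ω ℝ) (π : Ω → ℝ) : ℝ :=
  sInf {r : ℝ | ∃ f : Ω → ℝ, (∃ x y, f x ≠ f y) ∧
    r = energy P π (fun x => Real.exp (f x)) f / ent π (fun x => Real.exp (f x))}

/-- Relative entropy `D(μ ‖ π)`. -/
def relEnt (μ π : Ω → ℝ) : ℝ := ∑ y, μ y * Real.log (μ y / π y)

/-- The times at which the relative entropy of the chain started at `x` is at most `1/2`. -/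
def entTimes (P : Matrix Ω Ω ℝ) (π : Ω → ℝ) (x : Ω) : Set ℝ :=
  {t : ℝ | 0 ≤ t ∧ relEnt (fun y => heat P t x y) π ≤ 1 / 2}

/-- Entropy mixing time `τ_ent = max_x inf {t : D(P_x^t ‖ π) ≤ 1/2}`. -/
def tauEnt (P : Matrix Ω Ω ℝ) (π : Ω → ℝ) : ℝ := ⨆ x : Ω, sInf (entTimes P π x)

/-- The transition matrix killed outside `A`. -/
def killed (P : Matrix Ω Ω ℝ) (A : Finset Ω) : Matrix Ω Ω ℝ :=
  fun x y => if x ∈ A ∧ y ∈ A then P x y else 0

/-- `Pr_x[T_{Aᶜ} > t]`: the probability that the continuous-time chain started at `x` stays in `A`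
up to time `t`. -/
def stay (P : Matrix Ω Ω ℝ) (A : Finset Ω) (t : ℝ) (x : Ω) : ℝ :=
  ∑ y ∈ A, heat (killed P A) t x y

/-- `A` is connected: from every point of `A` the chain can reach every point of `A` before
leaving `A`. -/
def ConnectedSet (P : Matrix Ω Ω ℝ) (A : Finset Ω) : Prop :=
  ∀ a ∈ A, ∀ b ∈ A, Relation.ReflTransGen (fun u v => u ∈ A ∧ v ∈ A ∧ 0 < P u v) a b

/-- The times `t` with `Pr_x[T_{Aᶜ} > t] ≤ min (c / |log π(A)|) (99/100)` for all nonempty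
connected `A` with `π(A) ≤ 1/2`. -/
def hitTimes (c : ℝ) (P : Matrix Ω Ω ℝ) (π : Ω → ℝ) (x : Ω) : Set ℝ :=
  {t : ℝ | 0 ≤ t ∧ ∀ A : Finset Ω, A.Nonempty → ConnectedSet P A → ∑ a ∈ A, π a ≤ 1 / 2 →
    stay P A t x ≤ min (c / |Real.log (∑ a ∈ A, π a)|) (99 / 100)}

/-- The entropy hitting-time parameter `ρ_ent` with the constant `c = C_ent`. -/
def rhoEnt (c : ℝ) (P : Matrix Ω Ω ℝ) (π : Ω → ℝ) : ℝ := ⨆ x : Ω, sInf (hitTimes c P π x)

end

end Pool.Agent.Y984.ML
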