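import Pool.Agent.Y984.ML.Main

set_option autoImplicit false

open Finset Filter Topology

namespace Pool.Agent.Y984.ML

noncomputable section

variable {ε : ℝ}

/-- The Dirichlet form of the three-state chain. -/
theorem energy_eq (h0 : 0 < ε) (h1 : ε ≤ 1 / 8) (F f : Fin 3 → ℝ) :
    energy (PP ε) (pp ε) F f =
      ε / 2 * ((F 0 - F 1) * (f 0 - f 1) + (F 1 - F 2) * (f 1 - f 2)) := by
  have h2 : (1 - 2 * ε) ≠ 0 := by linarith
  have h3 : (1 - 2 * ε) * (ε / (2 * (1 - 2 * ε))) = ε * (1 / 2) := by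
    rw [mul_comm 2 (1 - 2 * ε), ← div_div, mul_div_assoc', mul_div_cancel₀ _ h2]
    ring
  have e1 : pp ε 0 = ε := rfl
  have e2 : pp ε 1 = ε := rfl
  have e3 : pp ε 2 = 1 - 2 * ε := rfl
  have m0 : (1 - PP ε).mulVec F 0 = (F 0 - F 1) / 2 := by
    simp [PP, Matrix.mulVec, dotProduct, Fin.sum_univ_three]; ring
  have m1 : (1 - PP ε).mulVec F 1 = F 1 - F 0 / 2 - F 2 / 2 := by
    simp [PP, Matrix.mulVec, dotProduct, Fin.sum_univ_three]; ring
  have m2 : (1 - PP ε).mulVec F 2 = ε / (2 * (1 - 2 * ε)) * (F 2 - F 1) := by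
    simp [PP, Matrix.mulVec, dotProduct, Fin.sum_univ_three]; ring
  rw [energy, Fin.sum_univ_three, m0, m1, m2, e1, e2, e3]
  have : (1 - 2 * ε) * (ε / (2 * (1 - 2 * ε)) * (F 2 - F 1) * f 2) =
      ε * (1 / 2) * ((F 2 - F 1) * f 2) := by
    rw [← h3]; ring
  rw [this]
  ring

theorem ent_eq (F : Fin 3 → ℝ) :
    ent (pp ε) F = ε * (F 0 * Real.log (F 0)) + ε * (F 1 * Real.log (F 1)) +
      (1 - 2 * ε) * (F 2 * Real.log (F 2)) -
      (ε * F 0 + ε * F 1 + (1 - 2 * ε) * F 2) * Real.log (ε * F 0 + ε * F 1 + (1 - 2 * ε) * F 2) := by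
  rw [ent, Fin.sum_univ_three, Fin.sum_univ_three]
  rfl

/-- `t log (t / m) ≥ t - m`, strictly unless `t = m` -/
theorem tlog {t m : ℝ} (ht : 0 < t) (hm : 0 < m) :
    t - m ≤ t * Real.log t - t * Real.log m ∧ (t ≠ m → t - m < t * Real.log t - t * Real.log m) := by
  have e : t * Real.log t - t * Real.log m = -(t * Real.log (m / t)) := by
    rw [Real.log_div hm.ne' ht.ne']; ring
  have e2 : t * (m / t - 1) = m - t := by field_simp
  rw [e]
  constructor
  · have := mul_le_mul_of_nonneg_left (Real.log_le_sub_one_of_pos (div_pos hm ht)) ht.le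
    rw [e2] at this
    linarith
  · intro hne
    have h1 : m / t ≠ 1 := by
      intro h
      rw [div_eq_one_iff_eq ht.ne'] at h
      exact hne h.symm
    have := mul_lt_mul_of_pos_left (Real.log_lt_sub_one_of_pos (div_pos hm ht) h1) ht
    rw [e2] at this
    linarith

theorem tlog_up {t m : ℝ} (ht : 0 < t) (hm : 0 < m) :
    t * Real.log t - t * Real.log m ≤ t * (t / m) - t := by
  have e : t * Real.log t - t * Real.log m = t * Real.log (t / m) := by
    rw [Real.log_div ht.ne' hm.ne']; ring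
  rw [e]
  have := mul_le_mul_of_nonneg_left (Real.log_le_sub_one_of_pos (div_pos ht hm)) ht.le
  linarith

/-- Entropies of non-constant positive functions are positive. -/
theorem ent_pos (h0 : 0 < ε) (h1 : ε ≤ 1 / 8) (F : Fin 3 → ℝ) (hF : ∀ x, 0 < F x)
    (hne : ∃ x y, F x ≠ F y) : 0 < ent (pp ε) F := by
  rw [ent_eq]
  set M := ε * F 0 + ε * F 1 + (1 - 2 * ε) * F 2 with hM
  have h2 : 0 < 1 - 2 * ε := by linarith
  have hM0 : 0 < M := by
    have := hF 0; have := hF 1; have := hF 2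
    positivity
  obtain ⟨a0, b0⟩ := tlog (hF 0) hM0
  obtain ⟨a1, b1⟩ := tlog (hF 1) hM0
  obtain ⟨a2, b2⟩ := tlog (hF 2) hM0
  have key : ε * (F 0 - M) + ε * (F 1 - M) + (1 - 2 * ε) * (F 2 - M) = 0 := by
    rw [hM]; ring
  have c0 := mul_le_mul_of_nonneg_left a0 h0.le
  have c1 := mul_le_mul_of_nonneg_left a1 h0.le
  have c2 := mul_le_mul_of_nonneg_left a2 h2.le
  have goal : ∀ (X : ℝ), ε * (F 0 * Real.log (F 0)) + ε * (F 1 * Real.log (F 1)) +
      (1 - 2 * ε) * (F 2 * Real.log (F 2)) - M * Real.log M =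
      ε * (F 0 * Real.log (F 0) - F 0 * Real.log M) + ε * (F 1 * Real.log (F 1) - F 1 * Real.log M) +
      (1 - 2 * ε) * (F 2 * Real.log (F 2) - F 2 * Real.log M) := by
    intro _
    have : M * Real.log M = ε * (F 0 * Real.log M) + ε * (F 1 * Real.log M) +
      (1 - 2 * ε) * (F 2 * Real.log M) := by
      rw [hM]; ring
    rw [this]; ring
  rw [goal 0]
  by_cases d0 : F 0 = M
  · by_cases d1 : F 1 = M
    · have d2 : F 2 = M := by
        have : (1 - 2 * ε) * (F 2 - M) = 0 := by rw [d0, d1] at key; linarith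
        rcases mul_eq_zero.mp this with h | h
        · exact absurd h h2.ne'
        · linarith
      exfalso
      obtain ⟨x, y, hxy⟩ := hne
      apply hxy
      have : ∀ x, F x = M := by intro x; fin_cases x <;> assumption
      rw [this x, this y]
    · have := mul_lt_mul_of_pos_left (b1 d1) h0
      linarith
  · have := mul_lt_mul_of_pos_left (b0 d0) h0
    linarith

theorem log_diff {a b : ℝ} (B : ℝ) (ha : 0 < a) (hb : 0 < b) (haB : a ≤ B) (hbB : b ≤ B) :
    (a - b) ^ 2 / B ≤ (a - b) * (Real.log a - Real.log b) := by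
  have hB : 0 < B := ha.trans_le haB
  rcases le_total b a with h | h
  · have h1 : (a - b) / B ≤ Real.log a - Real.log b := by
      have h2 := Real.log_le_sub_one_of_pos (div_pos hb ha)
      rw [Real.log_div hb.ne' ha.ne'] at h2
      have h3 : (a - b) / B ≤ (a - b) / a :=
        div_le_div_of_nonneg_left (by linarith) ha haB
      have h4 : (a - b) / a = 1 - b / a := by field_simp
      linarith
    calc (a - b) ^ 2 / B = (a - b) * ((a - b) / B) := by ring
      _ ≤ _ := mul_le_mul_of_nonneg_left h1 (by linarith)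
  · have h1 : (b - a) / B ≤ Real.log b - Real.log a := by
      have h2 := Real.log_le_sub_one_of_pos (div_pos ha hb)
      rw [Real.log_div ha.ne' hb.ne'] at h2
      have h3 : (b - a) / B ≤ (b - a) / b :=
        div_le_div_of_nonneg_left (by linarith) hb hbB
      have h4 : (b - a) / b = 1 - a / b := by field_simp
      linarith
    calc (a - b) ^ 2 / B = (b - a) * ((b - a) / B) := by ring
      _ ≤ (b - a) * (Real.log b - Real.log a) := mul_le_mul_of_nonneg_left h1 (by linarith)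
      _ = _ := by ring

/-- the modified log-Sobolev constant of the chain is positive -/
theorem ratio_ge (h0 : 0 < ε) (h1 : ε ≤ 1 / 8) (f : Fin 3 → ℝ) (hne : ∃ x y, f x ≠ f y) :
    ε ^ 2 / 4 ≤ energy (PP ε) (pp ε) (fun x => Real.exp (f x)) f /
      ent (pp ε) (fun x => Real.exp (f x)) := by
  set F : Fin 3 → ℝ := fun x => Real.exp (f x) with hFdef
  have hF : ∀ x, 0 < F x := fun x => Real.exp_pos _
  have hf : ∀ x, f x = Real.log (F x) := fun x => (Real.log_exp _).symm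
  have hneF : ∃ x y, F x ≠ F y := by
    obtain ⟨x, y, hxy⟩ := hne
    exact ⟨x, y, fun h => hxy (Real.exp_injective h)⟩
  have hent := ent_pos h0 h1 F hF hneF
  rw [le_div_iff₀ hent, energy_eq h0 h1, hf 0, hf 1, hf 2]
  rw [ent_eq] at hent ⊢
  set M := ε * F 0 + ε * F 1 + (1 - 2 * ε) * F 2 with hM
  have h2 : 0 < 1 - 2 * ε := by linarith
  have p0 := hF 0
  have p1 := hF 1
  have p2 := hF 2
  have hM0 : 0 < M := by positivity
  have q0 : F 0 ≤ M / ε := by rw [le_div_iff₀ h0]; rw [hM]; nlinarith [mul_pos h0 p1, mul_pos h2 p2]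
  have q1 : F 1 ≤ M / ε := by rw [le_div_iff₀ h0]; rw [hM]; nlinarith [mul_pos h0 p0, mul_pos h2 p2]
  have q2 : F 2 ≤ M / ε := by
    rw [le_div_iff₀ h0, hM]
    have : ε * F 2 ≤ (1 - 2 * ε) * F 2 := mul_le_mul_of_nonneg_right (by linarith) p2.le
    nlinarith [mul_pos h0 p1, mul_pos h0 p0]
  have r1 := log_diff (M / ε) p0 p1 q0 q1
  have r2 := log_diff (M / ε) p1 p2 q1 q2
  have u0 := mul_le_mul_of_nonneg_left (tlog_up p0 hM0) h0.le
  have u1 := mul_le_mul_of_nonneg_left (tlog_up p1 hM0) h0.le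
  have u2 := mul_le_mul_of_nonneg_left (tlog_up p2 hM0) h2.le
  have hEnt : ε * (F 0 * Real.log (F 0)) + ε * (F 1 * Real.log (F 1)) +
      (1 - 2 * ε) * (F 2 * Real.log (F 2)) - M * Real.log M ≤
      2 * ((F 0 - F 1) ^ 2 + (F 1 - F 2) ^ 2) / M := by
    have e1 : M * Real.log M = ε * (F 0 * Real.log M) + ε * (F 1 * Real.log M) +
      (1 - 2 * ε) * (F 2 * Real.log M) := by
      rw [hM]; ring
    have e2 : ε * (F 0 * (F 0 / M) - F 0) + ε * (F 1 * (F 1 / M) - F 1) +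
        (1 - 2 * ε) * (F 2 * (F 2 / M) - F 2) =
        (ε * F 0 ^ 2 + ε * F 1 ^ 2 + (1 - 2 * ε) * F 2 ^ 2 - M ^ 2) / M := by
      rw [eq_div_iff hM0.ne']
      have : (ε * (F 0 * (F 0 / M) - F 0) + ε * (F 1 * (F 1 / M) - F 1) +
        (1 - 2 * ε) * (F 2 * (F 2 / M) - F 2)) * M =
        ε * F 0 ^ 2 * (M / M) + ε * F 1 ^ 2 * (M / M) + (1 - 2 * ε) * F 2 ^ 2 * (M / M) -
          (ε * F 0 + ε * F 1 + (1 - 2 * ε) * F 2) * M := by ring
      rw [this, div_self hM0.ne', ← hM]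
      ring
    have e3 : ε * F 0 ^ 2 + ε * F 1 ^ 2 + (1 - 2 * ε) * F 2 ^ 2 - M ^ 2 =
        ε * ε * (F 0 - F 1) ^ 2 + ε * (1 - 2 * ε) * (F 0 - F 2) ^ 2 +
          ε * (1 - 2 * ε) * (F 1 - F 2) ^ 2 := by
      rw [hM]; ring
    have e4 : ε * ε * (F 0 - F 1) ^ 2 + ε * (1 - 2 * ε) * (F 0 - F 2) ^ 2 +
          ε * (1 - 2 * ε) * (F 1 - F 2) ^ 2 ≤ 2 * ((F 0 - F 1) ^ 2 + (F 1 - F 2) ^ 2) := by
      have g1 : (F 0 - F 2) ^ 2 ≤ 2 * (F 0 - F 1) ^ 2 + 2 * (F 1 - F 2) ^ 2 := by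
        nlinarith [sq_nonneg ((F 0 - F 1) - (F 1 - F 2))]
      have g2 : ε * (1 - 2 * ε) ≤ 1 / 8 := by nlinarith
      have g3 : 0 ≤ ε * (1 - 2 * ε) := by positivity
      have g4 : ε * ε ≤ 1 / 8 := by nlinarith
      have s1 := sq_nonneg (F 0 - F 1)
      have s2 := sq_nonneg (F 1 - F 2)
      have s3 := sq_nonneg (F 0 - F 2)
      have t1 := mul_le_mul_of_nonneg_right g4 s1
      have t2 := mul_le_mul_of_nonneg_right g2 s2
      have t3 := mul_le_mul_of_nonneg_right g2 s3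
      linarith
    rw [e1]
    calc ε * (F 0 * Real.log (F 0)) + ε * (F 1 * Real.log (F 1)) +
      (1 - 2 * ε) * (F 2 * Real.log (F 2)) - (ε * (F 0 * Real.log M) + ε * (F 1 * Real.log M) +
      (1 - 2 * ε) * (F 2 * Real.log M)) =
        ε * (F 0 * Real.log (F 0) - F 0 * Real.log M) +
        ε * (F 1 * Real.log (F 1) - F 1 * Real.log M) +
        (1 - 2 * ε) * (F 2 * Real.log (F 2) - F 2 * Real.log M) := by ring
      _ ≤ ε * (F 0 * (F 0 / M) - F 0) + ε * (F 1 * (F 1 / M) - F 1) +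
        (1 - 2 * ε) * (F 2 * (F 2 / M) - F 2) := by linarith
      _ ≤ _ := by
        rw [e2, e3]
        exact div_le_div_of_nonneg_right e4 hM0.le
  have hE : ε ^ 2 / 4 * (2 * ((F 0 - F 1) ^ 2 + (F 1 - F 2) ^ 2) / M) =
      ε / 2 * ((F 0 - F 1) ^ 2 / (M / ε) + (F 1 - F 2) ^ 2 / (M / ε)) := by
    field_simp
    ring
  calc ε ^ 2 / 4 * (ε * (F 0 * Real.log (F 0)) + ε * (F 1 * Real.log (F 1)) +
      (1 - 2 * ε) * (F 2 * Real.log (F 2)) - M * Real.log M)
      ≤ ε ^ 2 / 4 * (2 * ((F 0 - F 1) ^ 2 + (F 1 - F 2) ^ 2) / M) :=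
        mul_le_mul_of_nonneg_left hEnt (by positivity)
    _ = _ := hE
    _ ≤ _ := by
      apply mul_le_mul_of_nonneg_left _ (by positivity)
      linarith

theorem cMLS_pos (h0 : 0 < ε) (h1 : ε ≤ 1 / 8) : 0 < cMLS (PP ε) (pp ε) := by
  have : ε ^ 2 / 4 ≤ cMLS (PP ε) (pp ε) := by
    rw [cMLS]
    apply le_csInf
    · exact ⟨_, fun x => if x = 0 then 1 else 0, ⟨0, 1, by simp⟩, rfl⟩
    · rintro r ⟨f, hf, rfl⟩
      exact ratio_ge h0 h1 f hf
  have h2 : 0 < ε ^ 2 / 4 := by positivity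
  linarith

theorem bdd (h0 : 0 < ε) (h1 : ε ≤ 1 / 8) :
    BddBelow {r : ℝ | ∃ f : Fin 3 → ℝ, (∃ x y, f x ≠ f y) ∧
      r = energy (PP ε) (pp ε) (fun x => Real.exp (f x)) f /
        ent (pp ε) (fun x => Real.exp (f x))} := by
  refine ⟨ε ^ 2 / 4, ?_⟩
  rintro r ⟨f, hf, rfl⟩
  exact ratio_ge h0 h1 f hf

/-- upper bound for the modified log-Sobolev constant -/
theorem cMLS_le {L : ℝ} (hL : 10 ≤ L) :
    cMLS (PP (Real.exp (-L))) (pp (Real.exp (-L))) ≤ (1 + Real.log L) / L := by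
  have hL0 : 0 < L := by linarith
  set ε := Real.exp (-L) with hε
  have h0 : 0 < ε := Real.exp_pos _
  have h1 : ε ≤ 1 / 8 := by
    have h2 : ε ≤ Real.exp (-10) := Real.exp_le_exp.mpr (by linarith)
    have h3 : (8 : ℝ) ≤ Real.exp 10 := by
      have := Real.add_one_le_exp (10 : ℝ); linarith
    rw [Real.exp_neg] at h2
    calc ε ≤ (Real.exp 10)⁻¹ := h2
      _ ≤ 8⁻¹ := inv_anti₀ (by norm_num) h3
      _ = _ := by norm_num
  have hlog0 : 0 ≤ Real.log L := Real.log_nonneg (by linarith)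
  have hlogL : Real.log L ≤ L - 1 := Real.log_le_sub_one_of_pos hL0
  set f : Fin 3 → ℝ := ![L, L - Real.log L, 0] with hf
  have F0 : Real.exp (f 0) = ε⁻¹ := by
    rw [hε, Real.exp_neg, inv_inv]; rfl
  have F1 : Real.exp (f 1) = ε⁻¹ / L := by
    change Real.exp (L - Real.log L) = _
    rw [Real.exp_sub, Real.exp_log hL0, hε, Real.exp_neg, inv_inv]
  have F2 : Real.exp (f 2) = 1 := Real.exp_zero
  have f0 : f 0 = L := rfl
  have f1 : f 1 = L - Real.log L := rfl
  have f2 : f 2 = 0 := rfl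
  have hεi : ε * ε⁻¹ = 1 := mul_inv_cancel₀ h0.ne'
  have hE : energy (PP ε) (pp ε) (fun x => Real.exp (f x)) f ≤ (1 + Real.log L) / 2 := by
    rw [energy_eq h0 h1]
    simp only [F0, F1, F2]
    rw [f0, f1, f2]
    have e : ε / 2 * ((ε⁻¹ - ε⁻¹ / L) * (L - (L - Real.log L)) +
        (ε⁻¹ / L - 1) * (L - Real.log L - 0)) =
        (ε * ε⁻¹) * (1 - 1 / L) * Real.log L / 2 + (ε * ε⁻¹) / L * (L - Real.log L) / 2 -
          ε / 2 * (L - Real.log L) := by ring
    rw [e, hεi]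
    have i1 : (1 : ℝ) / L * (L - Real.log L) = 1 - Real.log L / L := by field_simp
    have i2 : 0 ≤ Real.log L / L := by positivity
    have i3 : 0 ≤ ε / 2 * (L - Real.log L) := by
      apply mul_nonneg (by positivity); linarith
    have i4 : 1 * (1 - 1 / L) * Real.log L = Real.log L - Real.log L / L := by ring
    linarith
  have hent : L / 2 ≤ ent (pp ε) (fun x => Real.exp (f x)) := by
    rw [ent_eq]
    simp only [F0, F1, F2]
    have l0 : Real.log ε⁻¹ = L := by rw [hε, Real.exp_neg, inv_inv, Real.log_exp]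
    have l1 : Real.log (ε⁻¹ / L) = L - Real.log L := by
      rw [Real.log_div (by positivity) hL0.ne', l0]
    rw [l0, l1, Real.log_one]
    have hm : ε * ε⁻¹ + ε * (ε⁻¹ / L) + (1 - 2 * ε) * 1 = 2 + 1 / L - 2 * ε := by
      have : ε * (ε⁻¹ / L) = (ε * ε⁻¹) / L := by ring
      rw [this, hεi]; ring
    rw [hm]
    have hLi : 1 / L ≤ 1 / 10 := one_div_le_one_div_of_le (by norm_num) hL
    have hLp : 0 < 1 / L := by positivity
    have hM1 : 1 ≤ 2 + 1 / L - 2 * ε := by linarith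
    have hM2 : 2 + 1 / L - 2 * ε ≤ 2.1 := by linarith
    have hlogM : Real.log (2 + 1 / L - 2 * ε) ≤ 1.1 := by
      have := Real.log_le_sub_one_of_pos (show 0 < 2 + 1 / L - 2 * ε by linarith)
      linarith
    have hMM : (2 + 1 / L - 2 * ε) * Real.log (2 + 1 / L - 2 * ε) ≤ 2.1 * 1.1 := by
      apply mul_le_mul hM2 hlogM (Real.log_nonneg hM1) (by norm_num)
    have j1 : ε * (ε⁻¹ * L) = L := by rw [← mul_assoc, hεi, one_mul]
    have j2 : ε * (ε⁻¹ / L * (L - Real.log L)) = 1 - Real.log L / L := by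
      have : ε * (ε⁻¹ / L * (L - Real.log L)) = (ε * ε⁻¹) * ((L - Real.log L) / L) := by ring
      rw [this, hεi, one_mul, sub_div, div_self hL0.ne']
    have j3 : Real.log L / L ≤ 1 := by rw [div_le_one hL0]; linarith
    rw [j1, j2]
    norm_num at hMM ⊢
    linarith
  have hmem : energy (PP ε) (pp ε) (fun x => Real.exp (f x)) f /
      ent (pp ε) (fun x => Real.exp (f x)) ∈ {r : ℝ | ∃ f : Fin 3 → ℝ, (∃ x y, f x ≠ f y) ∧
      r = energy (PP ε) (pp ε) (fun x => Real.exp (f x)) f /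
        ent (pp ε) (fun x => Real.exp (f x))} :=
    ⟨f, ⟨0, 2, by rw [f0, f2]; exact hL0.ne'⟩, rfl⟩
  have h5 := csInf_le (bdd h0 h1) hmem
  refine h5.trans ?_
  have hent0 : 0 < ent (pp ε) (fun x => Real.exp (f x)) := by linarith
  rw [div_le_div_iff₀ hent0 hL0]
  nlinarith

/-- the entropy of the chain at time `(16/3) log (8 L)` -/
theorem ent_time {L : ℝ} (hL : 10 ≤ L) (x : Fin 3) :
    16 / 3 * Real.log (8 * L) ∈ entTimes (PP (Real.exp (-L))) (pp (Real.exp (-L))) x := by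
  have hL0 : 0 < L := by linarith
  set ε := Real.exp (-L) with hε
  have h0 : 0 < ε := Real.exp_pos _
  have hLε : L * ε ≤ 1 / 32 := by
    -- `L e^{-L} ≤ 1/32` for `L ≥ 10`
    have h2 : L / 2 ≤ Real.exp (L / 2) := by
      have := Real.add_one_le_exp (L / 2); linarith
    have h3 : (128 : ℝ) ≤ Real.exp (L / 2) := by
      have h4 : Real.exp 5 ≤ Real.exp (L / 2) := Real.exp_le_exp.mpr (by linarith)
      have h5 : (128 : ℝ) ≤ Real.exp 5 := by
        have h6 : Real.exp 5 = Real.exp 1 ^ 5 := by rw [← Real.exp_nat_mul]; norm_num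
        have h7 : (2.7 : ℝ) ≤ Real.exp 1 := by have := Real.exp_one_gt_d9; linarith
        rw [h6]
        calc (128 : ℝ) ≤ 2.7 ^ 5 := by norm_num
          _ ≤ _ := pow_le_pow_left₀ (by norm_num) h7 5
      linarith
    have h8 : ε = (Real.exp (L / 2))⁻¹ * (Real.exp (L / 2))⁻¹ := by
      rw [hε, ← Real.exp_neg, ← Real.exp_add]; congr 1; ring
    set E := Real.exp (L / 2) with hE
    have hE0 : 0 < E := Real.exp_pos _
    rw [h8]
    have h9 : L * (E⁻¹ * E⁻¹) = (L / 2 / E) * (2 / E) := by field_simp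
    rw [h9]
    have h10 : L / 2 / E ≤ 1 := by rw [div_le_one hE0]; exact h2
    have h11 : 2 / E ≤ 1 / 64 := by
      rw [div_le_div_iff₀ hE0 (by norm_num)]; linarith
    have h12 : 0 ≤ 2 / E := by positivity
    nlinarith
  have hε8 : ε ≤ 1 / 320 := by
    have h2 : 10 * ε ≤ L * ε := mul_le_mul_of_nonneg_right hL h0.le
    linarith
  have h1 : ε ≤ 1 / 8 := by linarith
  have ht : 0 ≤ 16 / 3 * Real.log (8 * L) := by
    have := Real.log_nonneg (show (1 : ℝ) ≤ 8 * L by linarith)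
    positivity
  refine ⟨ht, ?_⟩
  refine (relEnt_bound h0 h1 ht x).trans ?_
  have e1 : Real.exp (-(3 / 16 * (16 / 3 * Real.log (8 * L)))) = (8 * L)⁻¹ := by
    rw [show -(3 / 16 * (16 / 3 * Real.log (8 * L))) = -Real.log (8 * L) by ring, Real.exp_neg,
      Real.exp_log (by positivity)]
  have e2 : -Real.log ε = L := by rw [hε, Real.log_exp]; ring
  rw [e1, e2]
  have e3 : (16 / 3 * ε + 8 / 5 * (8 * L)⁻¹) * L = 16 / 3 * (L * ε) + 1 / 5 := by
    field_simp
  rw [e3]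
  linarith

/-- the hitting times of the chain -/
theorem hit_time {c L : ℝ} (hc : 0 < c) (hL : 10 ≤ L) (x : Fin 3) :
    16 / 3 * Real.log (2 + 2 * L / c) ∈
      hitTimes c (PP (Real.exp (-L))) (pp (Real.exp (-L))) x := by
  have hL0 : 0 < L := by linarith
  set ε := Real.exp (-L) with hε
  have h0 : 0 < ε := Real.exp_pos _
  have h1 : ε ≤ 1 / 8 := by
    have h2 : ε ≤ Real.exp (-10) := Real.exp_le_exp.mpr (by linarith)
    have h3 : (8 : ℝ) ≤ Real.exp 10 := by
      have := Real.add_one_le_exp (10 : ℝ); linarith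
    rw [Real.exp_neg] at h2
    calc ε ≤ (Real.exp 10)⁻¹ := h2
      _ ≤ 8⁻¹ := inv_anti₀ (by norm_num) h3
      _ = _ := by norm_num
  have hq : 0 < 2 * L / c := by positivity
  have ht : 0 ≤ 16 / 3 * Real.log (2 + 2 * L / c) := by
    have := Real.log_nonneg (show (1 : ℝ) ≤ 2 + 2 * L / c by linarith)
    positivity
  refine ⟨ht, fun A hne _ hA => ?_⟩
  have h2A : (2 : Fin 3) ∉ A := by
    intro h
    have h3 : pp ε 2 ≤ ∑ a ∈ A, pp ε a :=
      Finset.single_le_sum (f := pp ε) (fun y _ => ((isChain h0 h1).pos y).le) h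
    have e3 : pp ε 2 = 1 - 2 * ε := rfl
    rw [e3] at h3
    linarith
  have hb := stay_bound h0 h1 h2A ht x
  have e1 : Real.exp (-(3 / 16 * (16 / 3 * Real.log (2 + 2 * L / c)))) =
      (2 + 2 * L / c)⁻¹ := by
    rw [show -(3 / 16 * (16 / 3 * Real.log (2 + 2 * L / c))) = -Real.log (2 + 2 * L / c) by ring,
      Real.exp_neg, Real.exp_log (by positivity)]
  rw [e1] at hb
  refine hb.trans (le_min ?_ ?_)
  · -- comparison with `c / |log π(A)|`
    have hπε : ε ≤ ∑ a ∈ A, pp ε a := by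
      obtain ⟨a, ha⟩ := hne
      have h3 : pp ε a ≤ ∑ a ∈ A, pp ε a :=
        Finset.single_le_sum (f := pp ε) (fun y _ => ((isChain h0 h1).pos y).le) ha
      have h4 : ε ≤ pp ε a := by
        fin_cases a
        · exact le_rfl
        · exact le_rfl
        · change ε ≤ 1 - 2 * ε; linarith
      linarith
    have hpos : 0 < ∑ a ∈ A, pp ε a := lt_of_lt_of_le h0 hπε
    have hlogneg : Real.log (∑ a ∈ A, pp ε a) < 0 := Real.log_neg hpos (by linarith)
    have hloge : -L ≤ Real.log (∑ a ∈ A, pp ε a) := by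
      have := Real.log_le_log h0 hπε
      rwa [hε, Real.log_exp] at this
    have habs : |Real.log (∑ a ∈ A, pp ε a)| ≤ L := by
      rw [abs_of_neg hlogneg]; linarith
    have habs0 : 0 < |Real.log (∑ a ∈ A, pp ε a)| := abs_pos.mpr hlogneg.ne
    have h5 : c / L ≤ c / |Real.log (∑ a ∈ A, pp ε a)| :=
      div_le_div_of_nonneg_left hc.le habs0 habs
    refine le_trans ?_ h5
    have h6 : (2 + 2 * L / c)⁻¹ ≤ (2 * L / c)⁻¹ := inv_anti₀ hq (by linarith)
    have h7 : (2 * L / c)⁻¹ = c / L / 2 := by field_simp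
    have h8 : 0 < c / L := by positivity
    rw [h7] at h6
    linarith
  · have h6 : (2 + 2 * L / c)⁻¹ ≤ 2⁻¹ := inv_anti₀ (by norm_num) (by linarith)
    norm_num at h6 ⊢
    linarith

theorem tauEnt_le {L : ℝ} (hL : 10 ≤ L) :
    tauEnt (PP (Real.exp (-L))) (pp (Real.exp (-L))) ≤ 16 / 3 * Real.log (8 * L) :=
  ciSup_le fun x => csInf_le ⟨0, fun _ ht => ht.1⟩ (ent_time hL x)

theorem rhoEnt_le {c L : ℝ} (hc : 0 < c) (hL : 10 ≤ L) :
    rhoEnt c (PP (Real.exp (-L))) (pp (Real.exp (-L))) ≤ 16 / 3 * Real.log (2 + 2 * L / c) :=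
  ciSup_le fun x => csInf_le ⟨0, fun _ ht => ht.1⟩ (hit_time hc hL x)

end

end Pool.Agent.Y984.ML
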