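import Pool.Agent.Y984.ML.Defs
import Pool.Agent.H990R2.CT

set_option autoImplicit false

open Finset Filter Topology

namespace Pool.Agent.Y984.ML

open Pool.Agent.H990R2

noncomputable section

section gen

variable {Ω : Type} [Fintype Ω] [DecidableEq Ω]

theorem heat_eq (P : Matrix Ω Ω ℝ) (t : ℝ) : heat P t = CT.H P t := by
  rw [heat, CT.H]
  congr 1
  rw [neg_smul, ← smul_neg, neg_sub]

theorem pow_nonneg' {P : Matrix Ω Ω ℝ} (hP : ∀ x y, 0 ≤ P x y) (k : ℕ) (x y : Ω) :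
    0 ≤ (P ^ k) x y := by
  induction k generalizing x y with
  | zero => rw [pow_zero, Matrix.one_apply]; split_ifs <;> norm_num
  | succ k ih =>
    rw [pow_succ', Matrix.mul_apply]
    exact Finset.sum_nonneg fun w _ => mul_nonneg (hP _ _) (ih _ _)

/-- a function contracted by a nonnegative matrix is contracted by the heat kernel -/
theorem heat_contract {P : Matrix Ω Ω ℝ} (hP : ∀ x y, 0 ≤ P x y) {u : Ω → ℝ} {lam : ℝ}
    (hl : lam ≤ 1) (hu : ∀ x, P.mulVec u x ≤ (1 - lam) * u x) {t : ℝ} (ht : 0 ≤ t) (x : Ω) :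
    (heat P t).mulVec u x ≤ Real.exp (-(lam * t)) * u x := by
  have hk : ∀ k x, (P ^ k).mulVec u x ≤ (1 - lam) ^ k * u x := by
    intro k
    induction k with
    | zero => intro x; simp
    | succ k ih =>
      intro x
      rw [pow_succ, ← Matrix.mulVec_mulVec]
      calc (P ^ k).mulVec (P.mulVec u) x ≤ (P ^ k).mulVec (fun y => (1 - lam) * u y) x := by
            simp only [Matrix.mulVec, dotProduct]
            exact Finset.sum_le_sum fun y _ =>
              mul_le_mul_of_nonneg_left (hu y) (pow_nonneg' hP k x y)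
        _ = (1 - lam) * (P ^ k).mulVec u x := by
            simp only [Matrix.mulVec, dotProduct, Finset.mul_sum]
            exact Finset.sum_congr rfl fun y _ => by ring
        _ ≤ (1 - lam) * ((1 - lam) ^ k * u x) :=
            mul_le_mul_of_nonneg_left (ih x) (by linarith)
        _ = _ := by ring
  rw [heat_eq]
  have h1 := CT.H_mulVec_hasSum P t u x
  have h2 := (CT.poisson_hasSum t (1 - lam)).mul_right (u x)
  have e : Real.exp ((1 - lam - 1) * t) = Real.exp (-(lam * t)) := by congr 1; ring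
  rw [e] at h2
  refine hasSum_le (fun k => ?_) h1 h2
  rw [mul_assoc (Real.exp (-t) * (t ^ k / (k.factorial : ℝ)))]
  exact mul_le_mul_of_nonneg_left (hk k x) (by positivity)

end gen

/-- the three-state chain: a path `0 - 1 - 2` with `π = (ε, ε, 1 - 2 ε)` -/
def PP (ε : ℝ) : Matrix (Fin 3) (Fin 3) ℝ :=
  !![1 / 2, 1 / 2, 0; 1 / 2, 0, 1 / 2; 0, ε / (2 * (1 - 2 * ε)), 1 - ε / (2 * (1 - 2 * ε))]

def pp (ε : ℝ) : Fin 3 → ℝ := ![ε, ε, 1 - 2 * ε]

section chain

variable {ε : ℝ}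

theorem kap_bounds (h0 : 0 < ε) (h1 : ε ≤ 1 / 8) :
    0 < ε / (2 * (1 - 2 * ε)) ∧ ε / (2 * (1 - 2 * ε)) ≤ ε ∧ ε / (2 * (1 - 2 * ε)) < 1 := by
  have h2 : 0 < 2 * (1 - 2 * ε) := by linarith
  refine ⟨by positivity, ?_, ?_⟩
  · rw [div_le_iff₀ h2]; nlinarith
  · rw [div_lt_iff₀ h2]; nlinarith

theorem PP_nonneg (h0 : 0 < ε) (h1 : ε ≤ 1 / 8) (x y : Fin 3) : 0 ≤ PP ε x y := by
  obtain ⟨a, b, c⟩ := kap_bounds h0 h1
  fin_cases x <;> fin_cases y <;> simp [PP] <;> first | positivity | linarith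

theorem PP_row (x : Fin 3) : ∑ y, PP ε x y = 1 := by
  fin_cases x <;> simp [PP, Fin.sum_univ_three]
  · norm_num
  · norm_num

theorem isChain (h0 : 0 < ε) (h1 : ε ≤ 1 / 8) : IsReversibleChain (PP ε) (pp ε) where
  nonneg := PP_nonneg h0 h1
  row := PP_row
  irreducible := by
    obtain ⟨a, b, c⟩ := kap_bounds h0 h1
    have hn := PP_nonneg h0 h1
    have h2 : ∀ x y z : Fin 3, 0 < PP ε x y → 0 < PP ε y z → 0 < (PP ε ^ 2) x z := by
      intro x y z hxy hyz
      rw [pow_two, Matrix.mul_apply]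
      exact Finset.sum_pos' (fun w _ => mul_nonneg (hn _ _) (hn _ _))
        ⟨y, Finset.mem_univ _, mul_pos hxy hyz⟩
    have p00 : 0 < PP ε 0 0 := by simp [PP]
    have p01 : 0 < PP ε 0 1 := by simp [PP]
    have p10 : 0 < PP ε 1 0 := by simp [PP]
    have p12 : 0 < PP ε 1 2 := by simp [PP]
    have p21 : 0 < PP ε 2 1 := by simpa [PP] using a
    intro x y
    refine ⟨2, ?_⟩
    fin_cases x <;> fin_cases y
    · exact h2 0 0 0 p00 p00
    · exact h2 0 0 1 p00 p01
    · exact h2 0 1 2 p01 p12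
    · exact h2 1 0 0 p10 p00
    · exact h2 1 0 1 p10 p01
    · have p22 : 0 < PP ε 2 2 := by simp [PP]; linarith
      exact h2 1 2 2 p12 p22
    · exact h2 2 1 0 p21 p10
    · have p22 : 0 < PP ε 2 2 := by simp [PP]; linarith
      exact h2 2 2 1 p22 p21
    · exact h2 2 1 2 p21 p12
  pos := by
    intro x
    fin_cases x <;> simp [pp] <;> linarith
  total := by simp [pp, Fin.sum_univ_three]; ring
  reversible := by
    have h2 : (1 - 2 * ε) ≠ 0 := by linarith
    have h3 : (1 - 2 * ε) * (ε / (2 * (1 - 2 * ε))) = ε * (1 / 2) := by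
      rw [mul_comm 2 (1 - 2 * ε), ← div_div, mul_div_assoc', mul_div_cancel₀ _ h2]
      ring
    have e1 : pp ε 0 = ε := rfl
    have e2 : pp ε 1 = ε := rfl
    have e3 : pp ε 2 = 1 - 2 * ε := rfl
    have f1 : PP ε 0 1 = 1 / 2 := rfl
    have f2 : PP ε 1 0 = 1 / 2 := rfl
    have f3 : PP ε 0 2 = 0 := rfl
    have f4 : PP ε 2 0 = 0 := rfl
    have f5 : PP ε 1 2 = 1 / 2 := rfl
    have f6 : PP ε 2 1 = ε / (2 * (1 - 2 * ε)) := rfl
    intro x y
    fin_cases x <;> fin_cases y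
    · rfl
    · change pp ε 0 * PP ε 0 1 = pp ε 1 * PP ε 1 0
      rw [e1, e2, f1, f2]
    · change pp ε 0 * PP ε 0 2 = pp ε 2 * PP ε 2 0
      rw [f3, f4, mul_zero, mul_zero]
    · change pp ε 1 * PP ε 1 0 = pp ε 0 * PP ε 0 1
      rw [e1, e2, f1, f2]
    · rfl
    · change pp ε 1 * PP ε 1 2 = pp ε 2 * PP ε 2 1
      rw [e2, e3, f5, f6, h3]
    · change pp ε 2 * PP ε 2 0 = pp ε 0 * PP ε 0 2
      rw [f3, f4, mul_zero, mul_zero]
    · change pp ε 2 * PP ε 2 1 = pp ε 1 * PP ε 1 2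
      rw [e2, e3, f5, f6, h3]
    · rfl

/-- the Lyapunov function -/
def hh : Fin 3 → ℝ := ![8 / 5, 1, 0]

theorem hh_nonneg (x : Fin 3) : 0 ≤ hh x := by fin_cases x <;> simp [hh]; norm_num

theorem hh_le (x : Fin 3) : hh x ≤ 8 / 5 := by fin_cases x <;> simp [hh] <;> norm_num

theorem PP_hh (h0 : 0 < ε) (h1 : ε ≤ 1 / 8) (x : Fin 3) :
    (PP ε).mulVec hh x ≤ (1 - 3 / 16) * hh x + ε := by
  obtain ⟨a, b, c⟩ := kap_bounds h0 h1
  fin_cases x
  · simp [PP, hh, Matrix.mulVec, dotProduct, Fin.sum_univ_three]; linarith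
  · simp [PP, hh, Matrix.mulVec, dotProduct, Fin.sum_univ_three]; linarith
  · simp [PP, hh, Matrix.mulVec, dotProduct, Fin.sum_univ_three]; linarith

theorem heat_row (h0 : 0 < ε) (h1 : ε ≤ 1 / 8) (t : ℝ) (x : Fin 3) :
    ∑ y, heat (PP ε) t x y = 1 := by
  rw [heat_eq]; exact CT.H_row PP_row t x

theorem heat_nonneg (h0 : 0 < ε) (h1 : ε ≤ 1 / 8) {t : ℝ} (ht : 0 ≤ t) (x y : Fin 3) :
    0 ≤ heat (PP ε) t x y := by
  rw [heat_eq]; exact CT.H_nonneg (PP_nonneg h0 h1) ht x y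

/-- mass outside the big state -/
theorem mass_bound (h0 : 0 < ε) (h1 : ε ≤ 1 / 8) {t : ℝ} (ht : 0 ≤ t) (x : Fin 3) :
    heat (PP ε) t x 0 + heat (PP ε) t x 1 ≤ 16 / 3 * ε + 8 / 5 * Real.exp (-(3 / 16 * t)) := by
  have hu : ∀ x, (PP ε).mulVec (fun y => hh y - 16 / 3 * ε) x ≤
      (1 - 3 / 16) * (hh x - 16 / 3 * ε) := by
    intro x
    have e : (PP ε).mulVec (fun y => hh y - 16 / 3 * ε) x =
        (PP ε).mulVec hh x - 16 / 3 * ε := by
      simp only [Matrix.mulVec, dotProduct, mul_sub]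
      rw [Finset.sum_sub_distrib, ← Finset.sum_mul, PP_row, one_mul]
    rw [e]
    have := PP_hh h0 h1 x
    linarith
  have h := heat_contract (PP_nonneg h0 h1) (by norm_num) hu ht x
  have e : (heat (PP ε) t).mulVec (fun y => hh y - 16 / 3 * ε) x =
      (heat (PP ε) t).mulVec hh x - 16 / 3 * ε := by
    simp only [Matrix.mulVec, dotProduct, mul_sub]
    rw [Finset.sum_sub_distrib, ← Finset.sum_mul, heat_row h0 h1, one_mul]
  rw [e] at h
  have e2 : (heat (PP ε) t).mulVec hh x = 8 / 5 * heat (PP ε) t x 0 + heat (PP ε) t x 1 := by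
    simp [Matrix.mulVec, dotProduct, Fin.sum_univ_three, hh]
    ring
  rw [e2] at h
  have h3 := heat_nonneg h0 h1 ht x 0
  have h4 : Real.exp (-(3 / 16 * t)) * (hh x - 16 / 3 * ε) ≤
      Real.exp (-(3 / 16 * t)) * (8 / 5) :=
    mul_le_mul_of_nonneg_left (by have := hh_le x; linarith) (Real.exp_pos _).le
  linarith

theorem heat_le_one (h0 : 0 < ε) (h1 : ε ≤ 1 / 8) {t : ℝ} (ht : 0 ≤ t) (x y : Fin 3) :
    heat (PP ε) t x y ≤ 1 := by
  rw [← heat_row h0 h1 t x]
  exact Finset.single_le_sum (f := fun y => heat (PP ε) t x y)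
    (fun y _ => heat_nonneg h0 h1 ht x y) (Finset.mem_univ y)

theorem log_term {a p : ℝ} (ha : 0 ≤ a) (ha1 : a ≤ 1) (hp : 0 < p) :
    a * Real.log (a / p) ≤ a * (-Real.log p) := by
  rcases ha.eq_or_lt with h | h
  · rw [← h]; simp
  · rw [Real.log_div h.ne' hp.ne']
    apply mul_le_mul_of_nonneg_left _ ha
    have := Real.log_nonpos ha ha1
    linarith

theorem relEnt_bound (h0 : 0 < ε) (h1 : ε ≤ 1 / 8) {t : ℝ} (ht : 0 ≤ t) (x : Fin 3) :
    relEnt (fun y => heat (PP ε) t x y) (pp ε) ≤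
      (16 / 3 * ε + 8 / 5 * Real.exp (-(3 / 16 * t))) * (-Real.log ε) + 4 * ε := by
  rw [relEnt, Fin.sum_univ_three]
  have b0 := log_term (heat_nonneg h0 h1 ht x 0) (heat_le_one h0 h1 ht x 0) h0
  have b1 := log_term (heat_nonneg h0 h1 ht x 1) (heat_le_one h0 h1 ht x 1) h0
  have b2 := log_term (heat_nonneg h0 h1 ht x 2) (heat_le_one h0 h1 ht x 2)
    (show 0 < 1 - 2 * ε by linarith)
  have e0 : pp ε 0 = ε := rfl
  have e1 : pp ε 1 = ε := rfl
  have e2 : pp ε 2 = 1 - 2 * ε := rfl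
  rw [e0, e1, e2]
  have hl : 0 ≤ -Real.log ε := by
    have := Real.log_nonpos h0.le (by linarith); linarith
  have hm := mass_bound h0 h1 ht x
  have h3 : -Real.log (1 - 2 * ε) ≤ 4 * ε := by
    have h4 : 0 < 1 - 2 * ε := by linarith
    have h5 := Real.one_sub_inv_le_log_of_pos h4
    have h6 : (1 - 2 * ε)⁻¹ ≤ 1 + 4 * ε := by
      rw [inv_le_comm₀ h4 (by linarith), inv_le_iff_one_le_mul₀ (by linarith)]
      nlinarith
    linarith
  have h7 : heat (PP ε) t x 2 * (-Real.log (1 - 2 * ε)) ≤ 4 * ε := by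
    have h8 : 0 ≤ -Real.log (1 - 2 * ε) := by
      have := Real.log_nonpos (show 0 ≤ 1 - 2 * ε by linarith) (by linarith)
      linarith
    calc heat (PP ε) t x 2 * (-Real.log (1 - 2 * ε)) ≤ 1 * (-Real.log (1 - 2 * ε)) :=
          mul_le_mul_of_nonneg_right (heat_le_one h0 h1 ht x 2) h8
      _ ≤ _ := by linarith
  have h9 := mul_le_mul_of_nonneg_right hm hl
  nlinarith

/-- the killed chain -/
theorem stay_bound (h0 : 0 < ε) (h1 : ε ≤ 1 / 8) {A : Finset (Fin 3)} (hA : (2 : Fin 3) ∉ A)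
    {t : ℝ} (ht : 0 ≤ t) (x : Fin 3) :
    stay (PP ε) A t x ≤ 8 / 5 * Real.exp (-(3 / 16 * t)) := by
  have hk : ∀ x y, 0 ≤ killed (PP ε) A x y := by
    intro x y
    rw [killed]
    split_ifs
    · exact PP_nonneg h0 h1 x y
    · exact le_rfl
  have hle : ∀ x y, killed (PP ε) A x y ≤ PP ε x y := by
    intro x y
    rw [killed]
    split_ifs
    · exact le_rfl
    · exact PP_nonneg h0 h1 x y
  have hu : ∀ x, (killed (PP ε) A).mulVec hh x ≤ (1 - 3 / 16) * hh x := by
    intro x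
    by_cases hx : x ∈ A
    · have h2 : (killed (PP ε) A).mulVec hh x ≤ (PP ε).mulVec hh x := by
        simp only [Matrix.mulVec, dotProduct]
        exact Finset.sum_le_sum fun y _ => mul_le_mul_of_nonneg_right (hle x y) (hh_nonneg y)
      refine h2.trans ?_
      have hx2 : x ≠ 2 := fun h => hA (h ▸ hx)
      fin_cases x
      · simp [PP, hh, Matrix.mulVec, dotProduct, Fin.sum_univ_three]; norm_num
      · simp [PP, hh, Matrix.mulVec, dotProduct, Fin.sum_univ_three]; norm_num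
      · exact absurd rfl hx2
    · have h2 : (killed (PP ε) A).mulVec hh x = 0 := by
        simp only [Matrix.mulVec, dotProduct]
        exact Finset.sum_eq_zero fun y _ => by rw [killed, if_neg (fun h => hx h.1), zero_mul]
      rw [h2]
      have := hh_nonneg x
      positivity
  have h := heat_contract hk (by norm_num) hu ht x
  have hnn : ∀ y, 0 ≤ heat (killed (PP ε) A) t x y := by
    intro y; rw [heat_eq]; exact CT.H_nonneg hk ht x y
  have h2 : stay (PP ε) A t x ≤ (heat (killed (PP ε) A) t).mulVec hh x := by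
    rw [stay]
    simp only [Matrix.mulVec, dotProduct]
    calc ∑ y ∈ A, heat (killed (PP ε) A) t x y ≤
        ∑ y ∈ A, heat (killed (PP ε) A) t x y * hh y := by
          apply Finset.sum_le_sum
          intro y hy
          have hy2 : y ≠ 2 := fun h => hA (h ▸ hy)
          have : 1 ≤ hh y := by
            fin_cases y
            · simp [hh]; norm_num
            · simp [hh]
            · exact absurd rfl hy2
          have := mul_le_mul_of_nonneg_left this (hnn y)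
          linarith
      _ ≤ _ := Finset.sum_le_sum_of_subset_of_nonneg (Finset.subset_univ _)
          fun y _ _ => mul_nonneg (hnn y) (hh_nonneg y)
  have h3 : Real.exp (-(3 / 16 * t)) * hh x ≤ Real.exp (-(3 / 16 * t)) * (8 / 5) :=
    mul_le_mul_of_nonneg_left (hh_le x) (Real.exp_pos _).le
  linarith

end chain

end

end Pool.Agent.Y984.ML
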